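import Pool.Agent.Helper63.PG.Alg

/-!
# Module PRO: the on-line colouring is proper
-/

set_option autoImplicit false

namespace Pool.Agent.Helper81.PG

open Pool.Agent.Helper63.PG Pool.Agent.Helper63.OC Pool.Agent.Helper24.OCM

/-- MODULE PRO (the colouring is proper). -/
theorem hPRO (K k : ℕ)
    (hstep : ∀ (G : SimpleGraph ℕ) (w : ℕ), G.Colorable k → NOH G → G.CliqueFree (w + 3) →
      NOH (Gm K k G) ∧ (Gm K k G).CliqueFree (w + 2))
    (hM : ∀ (G : SimpleGraph ℕ) (c0 : ℕ → List (Lab × List (ℕ × ℕ))), G.Colorable k → NOH G →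
      (∀ u v, (Gm K k G).Adj u v → c0 u ≠ c0 v) → IsMeyniel (mono (G3 K k G) c0)) :
    ∀ (w : ℕ) (G : SimpleGraph ℕ), G.Colorable k → NOH G → G.CliqueFree (w + 1) →
      ∀ a b, G.Adj a b → col K k w G a ≠ col K k w G b
  | 0, G, _, _, hG, a, b, _ => by
    exfalso
    exact hG {a} ⟨by simp, by simp⟩
  | 1, G, _, _, hG, a, b, hab => by
    exfalso
    refine hG {a, b} ⟨?_, ?_⟩
    · intro x hx y hy hxy
      simp only [Finset.coe_insert, Finset.coe_singleton, Set.mem_insert_iff,
        Set.mem_singleton_iff] at hx hy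
      rcases hx with rfl | rfl <;> rcases hy with rfl | rfl
      · exact absurd rfl hxy
      · exact hab
      · exact hab.symm
      · exact absurd rfl hxy
    · exact Finset.card_pair hab.ne
  | (w + 2), G, hc, hN, hG, a, b, hab => by
    intro heq
    rw [col, col, List.cons.injEq, Prod.mk.injEq] at heq
    obtain ⟨⟨h1, h2⟩, h3⟩ := heq
    obtain ⟨hN', hF'⟩ := hstep G w hc hN hG
    have hle3 : G3 K k G ≤ G := fun u v huv => huv.1
    have hle : Gm K k G ≤ G := fun u v huv => hle3 huv.1
    have hc' : (Gm K k G).Colorable k := hc.mono_left hle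
    have hp := hPRO K k hstep hM (w + 1) (Gm K k G) hc' hN' hF'
    have hMey := hM G (col K k (w + 1) (Gm K k G)) hc hN hp
    have hleM : mono (G3 K k G) (col K k (w + 1) (Gm K k G)) ≤ G :=
      fun u v huv => hle3 huv.1
    have hfree : (mono (G3 K k G) (col K k (w + 1) (Gm K k G))).CliqueFree (k + 1) :=
      (hc.mono_left hleM).cliqueFree (by omega)
    exact fcol_proper k _ hMey hfree a b ⟨⟨hab, h1⟩, h3⟩ h2

end Pool.Agent.Helper81.PG
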